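import Mathlib
import Pool.Agent.H574R3.CS.Stmts

set_option autoImplicit false

namespace Pool.Agent.H992R3.CS.M

open Pool.Agent.H574R3.CS MvPolynomial

/-- the property to be proved for a polynomial -/
def Good {K : Type} [Field K] (F : MvPolynomial (Fin 4) K) : Prop :=
  ∃ a : Ten K, (∀ (A : Type) [CommRing A] [Algebra K A] (v : Fin 4 → A),
      MvPolynomial.aeval v F = cub a v) ∧
    ∀ (A : Type) [CommRing A] [Algebra K A] (v w : Fin 4 → A),
      ∑ i, w i * MvPolynomial.aeval v (MvPolynomial.pderiv i F) = D a v w

theorem good_zero {K : Type} [Field K] : Good (0 : MvPolynomial (Fin 4) K) := by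
  refine ⟨fun _ _ _ => 0, ?_, ?_⟩
  · intro A _ _ v
    simp [cub]
  · intro A _ _ v w
    simp [D]

theorem good_add {K : Type} [Field K] {F G : MvPolynomial (Fin 4) K} (hF : Good F)
    (hG : Good G) : Good (F + G) := by
  obtain ⟨a, ha1, ha2⟩ := hF
  obtain ⟨b, hb1, hb2⟩ := hG
  refine ⟨fun i j k => a i j k + b i j k, ?_, ?_⟩
  · intro A _ _ v
    rw [map_add, ha1, hb1]
    simp only [cub, map_add, add_mul, Finset.sum_add_distrib]
  · intro A _ _ v w
    simp only [map_add, mul_add, Finset.sum_add_distrib]
    rw [ha2, hb2]
    simp only [D, map_add, add_mul, Finset.sum_add_distrib]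

theorem good_mono {K : Type} [Field K] (c : K) (i j k : Fin 4) :
    Good (C c * (X i * X j * X k) : MvPolynomial (Fin 4) K) := by
  refine ⟨fun p q r => if p = i then (if q = j then (if r = k then c else 0) else 0) else 0,
    ?_, ?_⟩
  · intro A _ _ v
    simp only [cub, map_mul, aeval_X, algHom_C]
    rw [Finset.sum_eq_single i, Finset.sum_eq_single j, Finset.sum_eq_single k]
    · simp
    · intro r _ hr
      simp [hr]
    · simp
    · intro q _ hq
      simp [hq]
    · simp
    · intro p _ hp
      simp [hp]
    · simp
  · intro A _ _ v w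
    have h1 : D (fun p q r => if p = i then (if q = j then (if r = k then c else 0) else 0)
        else 0) v w = algebraMap K A c * (w i * v j * v k + v i * w j * v k + v i * v j * w k) := by
      simp only [D]
      rw [Finset.sum_eq_single i, Finset.sum_eq_single j, Finset.sum_eq_single k]
      · simp
      · intro r _ hr
        simp [hr]
      · simp
      · intro q _ hq
        simp [hq]
      · simp
      · intro p _ hp
        simp [hp]
      · simp
    rw [h1]
    have h2 : ∀ l : Fin 4, aeval v (pderiv l (C c * (X i * X j * X k) : MvPolynomial (Fin 4) K))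
        = algebraMap K A c * ((Pi.single l (1:A) : Fin 4 → A) i * v j * v k +
          v i * (Pi.single l (1:A) : Fin 4 → A) j * v k +
          v i * v j * (Pi.single l (1:A) : Fin 4 → A) k) := by
      intro l
      have h3 : ∀ m : Fin 4, aeval v ((Pi.single l 1 : Fin 4 → MvPolynomial (Fin 4) K) m)
          = (Pi.single l (1:A) : Fin 4 → A) m := by
        intro m
        by_cases hm : m = l
        · subst hm
          simp
        · simp [hm]
      simp only [Derivation.leibniz, pderiv_C, pderiv_X, smul_eq_mul, map_add, map_mul, aeval_X,
        algHom_C, mul_zero, add_zero, h3]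
      ring
    simp only [h2]
    have h4 : ∀ (m : Fin 4) (B : A), ∑ l, w l * (algebraMap K A c * ((Pi.single l (1:A) : Fin 4 → A) m * B))
        = algebraMap K A c * (w m * B) := by
      intro m B
      rw [Finset.sum_eq_single m]
      · simp
        ring
      · intro l _ hl
        simp [Pi.single_apply, hl.symm]
      · simp
    have e1 := h4 i (v j * v k)
    have e2 := h4 j (v i * v k)
    have e3 := h4 k (v i * v j)
    have : ∀ l : Fin 4, w l * (algebraMap K A c * ((Pi.single l (1:A) : Fin 4 → A) i * v j * v k +
          v i * (Pi.single l (1:A) : Fin 4 → A) j * v k + v i * v j * (Pi.single l (1:A) : Fin 4 → A) k))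
        = w l * (algebraMap K A c * ((Pi.single l (1:A) : Fin 4 → A) i * (v j * v k)))
        + w l * (algebraMap K A c * ((Pi.single l (1:A) : Fin 4 → A) j * (v i * v k)))
        + w l * (algebraMap K A c * ((Pi.single l (1:A) : Fin 4 → A) k * (v i * v j))) := by
      intro l
      ring
    rw [Finset.sum_congr rfl (fun l _ => this l), Finset.sum_add_distrib, Finset.sum_add_distrib,
      e1, e2, e3]
    ring

theorem good_monomial {K : Type} [Field K] (c : K) (d : Fin 4 →₀ ℕ) (hd : d.degree = 3) :
    Good (monomial d c) := by
  have hcard : Multiset.card (Finsupp.toMultiset d) = 3 := by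
    rw [Finsupp.card_toMultiset]
    rw [← hd]
    rfl
  obtain ⟨i, j, k, h⟩ := Multiset.card_eq_three.1 hcard
  have hdd : d = Finsupp.single i 1 + Finsupp.single j 1 + Finsupp.single k 1 := by
    have h5 : Finsupp.toMultiset d =
        Finsupp.toMultiset (Finsupp.single i 1 + Finsupp.single j 1 + Finsupp.single k 1) := by
      rw [h]
      simp only [map_add, Finsupp.toMultiset_single, one_smul]
      rfl
    have h6 := congrArg Multiset.toFinsupp h5
    rwa [Finsupp.toMultiset_toFinsupp, Finsupp.toMultiset_toFinsupp] at h6
  have : (monomial d c : MvPolynomial (Fin 4) K) = C c * (X i * X j * X k) := by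
    rw [hdd]
    simp only [X, monomial_mul, C_mul_monomial, mul_one]
  rw [this]
  exact good_mono c i j k

/-- every cubic form comes from a tensor -/
theorem taskM : TaskM := by
  intro K _ F hF
  show Good F
  rw [F.as_sum]
  have : ∀ s : Finset (Fin 4 →₀ ℕ), (∀ d ∈ s, d.degree = 3) →
      Good (∑ d ∈ s, monomial d (coeff d F)) := by
    intro s
    induction s using Finset.induction_on with
    | empty => intro _; simpa using good_zero
    | insert d s hds ih =>
      intro h
      rw [Finset.sum_insert hds]
      exact good_add (good_monomial _ _ (h d (Finset.mem_insert_self _ _)))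
        (ih fun e he => h e (Finset.mem_insert_of_mem he))
  apply this
  intro d hd
  have := hF (mem_support_iff.1 hd)
  rw [← this]
  simp [Finsupp.weight_apply, Finsupp.degree, Finsupp.sum]

end Pool.Agent.H992R3.CS.M
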